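import Pool.Agent.Lib.MP_4fbe7c_an.WH.Iface
import Pool.Agent.Lib.MP_4fbe7c_an.SD.Logg

/-!
Project WH (MP_4fbe7c_an), module OSC: oscillation bounds for a positive function.
-/

set_option autoImplicit false

open Set Filter Topology MeasureTheory
open scoped Interval

namespace Pool.Agent.Lib.MP_4fbe7c_an.WH.H30

open Pool.Agent.Lib.MP_4fbe7c_an.SD Pool.Agent.Lib.MP_4fbe7c_an.FC

theorem deriv_sign {E c t : ℝ} (hE : Real.exp c = E) (hc : 0 ≤ c) (ht : t ≤ c) :
    (0 ≤ t → Real.exp t ≤ 1 + t * E) ∧ (t ≤ 0 → 1 + t * E ≤ Real.exp t) := by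
  have hE1 : 1 ≤ E := by rw [← hE]; exact Real.one_le_exp hc
  constructor
  · intro h0
    have h1 : Real.exp t ≤ E := by rw [← hE]; exact Real.exp_le_exp.2 ht
    have h2 : -t + 1 ≤ Real.exp (-t) := Real.add_one_le_exp (-t)
    have h3 : Real.exp t * (-t + 1) ≤ Real.exp t * Real.exp (-t) :=
      mul_le_mul_of_nonneg_left h2 (Real.exp_pos t).le
    rw [← Real.exp_add, add_neg_cancel, Real.exp_zero] at h3
    have h4 : t * Real.exp t ≤ t * E := mul_le_mul_of_nonneg_left h1 h0
    linarith
  · intro h0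
    have h1 : t + 1 ≤ Real.exp t := Real.add_one_le_exp t
    have h2 : t * E ≤ t * 1 := mul_le_mul_of_nonpos_left hE1 h0
    linarith

theorem exp_bound_two {c t : ℝ} (hc : 0 ≤ c) (ht : t ≤ c) :
    Real.exp t ≤ 1 + t + t ^ 2 / 2 * Real.exp c := by
  set E := Real.exp c with hE
  have hd : ∀ s : ℝ, HasDerivAt (fun s : ℝ => 1 + s + s ^ 2 / 2 * E - Real.exp s)
      (1 + s * E - Real.exp s) s := by
    intro s
    have h1 : HasDerivAt (fun s : ℝ => 1 + s) 1 s := (hasDerivAt_id s).const_add 1
    have h2 : HasDerivAt (fun s : ℝ => s ^ 2 / 2 * E) (s * E) s := by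
      have h3 := ((hasDerivAt_pow 2 s).div_const 2).mul_const E
      have h4 : ((2 : ℕ) : ℝ) * s ^ (2 - 1) / 2 * E = s * E := by
        norm_num
      rw [h4] at h3
      exact h3
    exact (h1.add h2).sub (Real.hasDerivAt_exp s)
  have hcont : Continuous (fun s : ℝ => 1 + s + s ^ 2 / 2 * E - Real.exp s) := by fun_prop
  rcases le_total 0 t with h0 | h0
  · have hm : MonotoneOn (fun s : ℝ => 1 + s + s ^ 2 / 2 * E - Real.exp s) (Icc 0 c) := by
      refine monotoneOn_of_deriv_nonneg (convex_Icc 0 c) hcont.continuousOn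
        (fun s _ => (hd s).differentiableAt.differentiableWithinAt) ?_
      intro s hs
      rw [interior_Icc] at hs
      rw [(hd s).deriv]
      have := (deriv_sign hE.symm hc hs.2.le).1 hs.1.le
      linarith
    have h1 := hm ⟨le_rfl, hc⟩ ⟨h0, ht⟩ h0
    simp only [Real.exp_zero] at h1
    linarith
  · have hm : AntitoneOn (fun s : ℝ => 1 + s + s ^ 2 / 2 * E - Real.exp s) (Iic 0) := by
      refine antitoneOn_of_deriv_nonpos (convex_Iic 0) hcont.continuousOn
        (fun s _ => (hd s).differentiableAt.differentiableWithinAt) ?_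
      intro s hs
      rw [interior_Iic] at hs
      rw [(hd s).deriv]
      have := (deriv_sign (t := s) hE.symm hc (le_trans (le_of_lt hs) hc)).2 (le_of_lt hs)
      linarith
    have h1 := hm (mem_Iic.2 h0) (mem_Iic.2 le_rfl) h0
    simp only [Real.exp_zero] at h1
    linarith

theorem sq_le_of_osc {L : ℝ} (hL : 0 < L) {g g' : ℝ → ℝ} (h : DerivOn L g g')
    (hc : ContinuousOn g' (Icc 0 L)) {x y : ℝ} (hx : x ∈ Icc 0 L) (hy : y ∈ Icc 0 L) :
    (g y - g x) ^ 2 ≤ L * ∫ z in (0)..L, g' z ^ 2 := by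
  have hs0 : 0 ≤ ∫ z in (0)..L, g' z ^ 2 :=
    intervalIntegral.integral_nonneg hL.le fun z _ => sq_nonneg _
  rcases eq_or_lt_of_le (abs_nonneg (g y - g x)) with h0 | h0
  · have h1 : g y - g x = 0 := abs_eq_zero.1 h0.symm
    rw [h1]
    have : 0 ≤ L * ∫ z in (0)..L, g' z ^ 2 := mul_nonneg hL.le hs0
    simpa using this
  · have h1 := osc_le_log hL h hc (lam := L / |g y - g x|) (by positivity) hx hy
    rw [← sq_abs (g y - g x)]
    set a := |g y - g x| with ha
    set s := ∫ z in (0)..L, g' z ^ 2 with hs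
    have h2 : L / (L / a) = a := by field_simp
    rw [h2] at h1
    have h3 : a * 2 ≤ L / a * s + a := by linarith
    have h4 : a * (a * 2) ≤ a * (L / a * s + a) := mul_le_mul_of_nonneg_left h3 h0.le
    have h5 : a * (L / a * s + a) = L * s + a ^ 2 := by field_simp
    nlinarith

theorem osc : OscStatement := by
  intro L K f f' hL hK hf hf'c hpos hint
  have hfc : ContinuousOn f (Icc 0 L) := hf.continuousOn
  have hg : DerivOn L (fun x => Real.log (f x)) (fun x => f' x / f x) := fun x hx =>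
    (hf x hx).log (hpos x hx).ne'
  have hg'c : ContinuousOn (fun x => f' x / f x) (Icc 0 L) :=
    hf'c.div hfc fun x hx => (hpos x hx).ne'
  have hgc : ContinuousOn (fun x => Real.log (f x)) (Icc 0 L) := hg.continuousOn
  have hgi : IntervalIntegrable (fun x => Real.log (f x)) volume 0 L :=
    hgc.intervalIntegrable_of_Icc hL.le
  have hfi : IntervalIntegrable f volume 0 L := hfc.intervalIntegrable_of_Icc hL.le
  set s := ∫ x in (0)..L, (f' x / f x) ^ 2 with hs
  have hs0 : 0 ≤ s := intervalIntegral.integral_nonneg hL.le fun z _ => sq_nonneg _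
  set mu := (∫ x in (0)..L, Real.log (f x)) / L with hmu
  have hsup : ∀ x ∈ Icc 0 L, |Real.log (f x) - mu| ≤ Real.sqrt (L * s) := by
    intro x hx
    have h1 : ∀ z ∈ Icc 0 L, |Real.log (f x) - Real.log (f z)| ≤ Real.sqrt (L * s) := by
      intro z hz
      exact Real.abs_le_sqrt (sq_le_of_osc hL hg hg'c hz hx)
    have h2 : ‖∫ z in (0)..L, (Real.log (f x) - Real.log (f z))‖ ≤
        Real.sqrt (L * s) * |L - 0| := by
      refine intervalIntegral.norm_integral_le_of_norm_le_const fun z hz => ?_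
      rw [uIoc_of_le hL.le] at hz
      rw [Real.norm_eq_abs]
      exact h1 z ⟨hz.1.le, hz.2⟩
    rw [intervalIntegral.integral_sub intervalIntegrable_const hgi,
      intervalIntegral.integral_const, smul_eq_mul, sub_zero, Real.norm_eq_abs,
      abs_of_pos hL] at h2
    have h3 : L * Real.log (f x) - ∫ z in (0)..L, Real.log (f z) =
        L * (Real.log (f x) - mu) := by
      rw [hmu]; field_simp
    rw [h3, abs_mul, abs_of_pos hL, mul_comm] at h2
    exact le_of_mul_le_mul_right h2 hL
  have hLs : L * s ≤ L * K := mul_le_mul_of_nonneg_left hint hL.le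
  have hLs0 : 0 ≤ L * s := mul_nonneg hL.le hs0
  have hsq : Real.sqrt (L * s) ≤ 1 + L * K := by
    rw [Real.sqrt_le_iff]
    constructor
    · linarith
    · nlinarith
  have hxi : ∀ x ∈ Icc 0 L, |Real.log (f x) - mu| ≤ 1 + L * K := fun x hx =>
    (hsup x hx).trans hsq
  have hxs : ∀ x ∈ Icc 0 L, (Real.log (f x) - mu) ^ 2 ≤ L * s := by
    intro x hx
    have h1 := hsup x hx
    have h2 := pow_le_pow_left₀ (abs_nonneg _) h1 2
    rw [sq_abs, Real.sq_sqrt hLs0] at h2
    exact h2
  refine ⟨fun x hx => ⟨hxi x hx, hxs x hx⟩, ?_⟩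
  have hc0 : 0 ≤ 1 + L * K := by linarith
  have hpt : ∀ x ∈ Icc 0 L, f x ≤ Real.exp mu *
      ((1 + L * s / 2 * Real.exp (1 + L * K) - mu) + Real.log (f x)) := by
    intro x hx
    have h1 := exp_bound_two hc0 ((le_abs_self _).trans (hxi x hx))
    have h2 : f x = Real.exp mu * Real.exp (Real.log (f x) - mu) := by
      rw [← Real.exp_add]
      rw [add_sub_cancel, Real.exp_log (hpos x hx)]
    have h3 : (Real.log (f x) - mu) ^ 2 / 2 * Real.exp (1 + L * K) ≤
        L * s / 2 * Real.exp (1 + L * K) := by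
      apply mul_le_mul_of_nonneg_right _ (Real.exp_pos _).le
      linarith [hxs x hx]
    calc f x = Real.exp mu * Real.exp (Real.log (f x) - mu) := h2
      _ ≤ _ := mul_le_mul_of_nonneg_left (by linarith) (Real.exp_pos _).le
  have h1 : ∫ x in (0)..L, f x ≤ ∫ x in (0)..L, Real.exp mu *
      ((1 + L * s / 2 * Real.exp (1 + L * K) - mu) + Real.log (f x)) := by
    refine intervalIntegral.integral_mono_on hL.le hfi ?_ hpt
    exact (intervalIntegrable_const.add hgi).const_mul _
  refine h1.trans (le_of_eq ?_)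
  rw [intervalIntegral.integral_const_mul, intervalIntegral.integral_add intervalIntegrable_const
    hgi, intervalIntegral.integral_const, smul_eq_mul, sub_zero]
  have h2 : ∫ x in (0)..L, Real.log (f x) = L * mu := by
    rw [hmu]; field_simp
  rw [h2]
  ring

end Pool.Agent.Lib.MP_4fbe7c_an.WH.H30
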